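import Mathlib
import Pool.Agent.H838R2.PL.Final

set_option autoImplicit false

/-!
# The growth rate of the number of prime links, and a bound for each term by it

Let `l n` be the number of prime links with crossing number `n` and `lm n` the number of prime links
with crossing number `n` where a link and its mirror image are counted once. The `n`-th roots of
`l n` and of `lm n` converge to the same limit `c`, and `l n ≤ e (n + 6) c ^ (n + 6)` for every `n`.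
This comes from the product inequality for `l`.

The definitions are in `Pool.Agent.H838R2.PL.Defs` and `Pool.Agent.H838R2.PL.Count2`.
-/

open Filter Topology
open scoped ENNReal

namespace Pool.Agent.Results.MP_131179_gt.GrowthRate

theorem choose_bound (m K : ℕ) :
    (((K * (m + 6)).choose K : ℕ) : ℝ) ≤ (Real.exp 1 * (m + 6)) ^ K := by
  have h1 : (((K * (m + 6)).choose K : ℕ) : ℝ) ≤ ((K * (m + 6) : ℕ) : ℝ) ^ K / (K.factorial : ℝ) :=
    Nat.choose_le_pow_div K (K * (m + 6))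
  have h2 : ((K : ℝ)) ^ K / (K.factorial : ℝ) ≤ Real.exp K :=
    Real.pow_div_factorial_le_exp (K : ℝ) (Nat.cast_nonneg _) K
  refine h1.trans ?_
  have h3 : ((K * (m + 6) : ℕ) : ℝ) ^ K / (K.factorial : ℝ) =
      ((K : ℝ) ^ K / (K.factorial : ℝ)) * ((m : ℝ) + 6) ^ K := by
    push_cast
    rw [mul_pow]
    ring
  rw [h3, mul_pow, ← Real.exp_nat_mul, mul_one]
  exact mul_le_mul_of_nonneg_right h2 (by positivity)

theorem step (a : ℕ → ℝ≥0∞) (m K : ℕ) (hK : 2 ≤ K)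
    (h : a m ^ K ≤ ((K * (K * (m + 6)).choose K : ℕ) : ℝ≥0∞) * a (K * (m + 6))) :
    a m ≤ ENNReal.ofReal ((K : ℝ) ^ ((1 : ℝ) / K)) * ENNReal.ofReal (Real.exp 1 * (m + 6)) *
      (a (K * (m + 6)) ^ ((1 : ℝ) / ((K * (m + 6) : ℕ) : ℝ))) ^ (m + 6) := by
  have hK0 : K ≠ 0 := by omega
  have hKR : (K : ℝ) ≠ 0 := by exact_mod_cast hK0
  have hinv : (0 : ℝ) ≤ (K : ℝ)⁻¹ := by positivity
  have h1 : ((K * (K * (m + 6)).choose K : ℕ) : ℝ≥0∞) ≤
      ENNReal.ofReal (K : ℝ) * ENNReal.ofReal (Real.exp 1 * (m + 6)) ^ K := by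
    rw [Nat.cast_mul, ← ENNReal.ofReal_natCast K, ← ENNReal.ofReal_natCast,
      ← ENNReal.ofReal_pow (by positivity)]
    gcongr
    exact choose_bound m K
  have h2 : a m = (a m ^ K) ^ ((K : ℝ)⁻¹) := (ENNReal.pow_rpow_inv_natCast hK0 _).symm
  rw [h2]
  calc (a m ^ K) ^ ((K : ℝ)⁻¹) ≤ (ENNReal.ofReal (K : ℝ) *
        ENNReal.ofReal (Real.exp 1 * (m + 6)) ^ K * a (K * (m + 6))) ^ ((K : ℝ)⁻¹) := by
        refine ENNReal.rpow_le_rpow (h.trans ?_) hinv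
        gcongr
    _ = ENNReal.ofReal ((K : ℝ) ^ ((1 : ℝ) / K)) * ENNReal.ofReal (Real.exp 1 * (m + 6)) *
      (a (K * (m + 6)) ^ ((1 : ℝ) / ((K * (m + 6) : ℕ) : ℝ))) ^ (m + 6) := by
        rw [ENNReal.mul_rpow_of_nonneg _ _ hinv, ENNReal.mul_rpow_of_nonneg _ _ hinv,
          ENNReal.pow_rpow_inv_natCast hK0, ENNReal.ofReal_rpow_of_nonneg (by positivity) hinv,
          one_div]
        congr 1
        rw [← ENNReal.rpow_natCast, ← ENNReal.rpow_mul]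
        congr 1
        push_cast
        have : (m : ℝ) + 6 ≠ 0 := by positivity
        field_simp

theorem growth (a : ℕ → ℝ≥0∞) (c : ℝ≥0∞)
    (hlim : Tendsto (fun n : ℕ => a n ^ ((1:ℝ) / n)) atTop (𝓝 c)) (m : ℕ)
    (hprod : ∀ K : ℕ, 2 ≤ K →
      a m ^ K ≤ ((K * (K * (m + 6)).choose K : ℕ) : ℝ≥0∞) * a (K * (m + 6))) :
    a m ≤ ENNReal.ofReal (Real.exp 1 * (m + 6)) * c ^ (m + 6) := by
  have h1 : Tendsto (fun K : ℕ => K * (m + 6)) atTop atTop :=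
    Filter.tendsto_id.atTop_mul_const' (by omega)
  have h2 : Tendsto (fun K : ℕ => (a (K * (m + 6)) ^ ((1 : ℝ) / ((K * (m + 6) : ℕ) : ℝ))) ^ (m + 6))
      atTop (𝓝 (c ^ (m + 6))) := ENNReal.Tendsto.pow (hlim.comp h1)
  have h3 : Tendsto (fun K : ℕ => ENNReal.ofReal ((K : ℝ) ^ ((1 : ℝ) / K))) atTop
      (𝓝 (ENNReal.ofReal 1)) :=
    ENNReal.tendsto_ofReal (tendsto_rpow_div.comp tendsto_natCast_atTop_atTop)
  have hpos : 0 < Real.exp 1 * ((m : ℝ) + 6) := by positivity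
  have h4 : Tendsto (fun K : ℕ => ENNReal.ofReal ((K : ℝ) ^ ((1 : ℝ) / K)) *
      ENNReal.ofReal (Real.exp 1 * (m + 6))) atTop
      (𝓝 (ENNReal.ofReal 1 * ENNReal.ofReal (Real.exp 1 * (m + 6)))) :=
    ENNReal.Tendsto.mul_const h3 (Or.inr ENNReal.ofReal_ne_top)
  rw [ENNReal.ofReal_one, one_mul] at h4
  have h5 := ENNReal.Tendsto.mul h4 (Or.inl (ENNReal.ofReal_pos.mpr hpos).ne') h2
    (Or.inr ENNReal.ofReal_ne_top)
  refine ge_of_tendsto h5 ?_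
  filter_upwards [eventually_ge_atTop 2] with K hK
  exact step a m K hK (hprod K hK)

/-- the same limit for a sequence within a factor of two -/
theorem same_limit (a b : ℕ → ℝ≥0∞) (c : ℝ≥0∞) (h1 : ∀ n, b n ≤ a n) (h2 : ∀ n, a n ≤ 2 * b n)
    (hlim : Tendsto (fun n : ℕ => a n ^ ((1:ℝ) / n)) atTop (𝓝 c)) :
    Tendsto (fun n : ℕ => b n ^ ((1:ℝ) / n)) atTop (𝓝 c) := by
  have h3 : Tendsto (fun n : ℕ => ((2 : ℝ≥0∞)⁻¹) ^ ((1:ℝ) / n)) atTop (𝓝 1) := by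
    have h4 : Tendsto (fun n : ℕ => ENNReal.ofReal (((2:ℝ)⁻¹) ^ ((1:ℝ) / n))) atTop
        (𝓝 (ENNReal.ofReal (((2:ℝ)⁻¹) ^ (0:ℝ)))) := by
      refine ENNReal.tendsto_ofReal ?_
      refine Tendsto.comp (f := fun n : ℕ => (1:ℝ) / n) (g := fun x : ℝ => ((2:ℝ)⁻¹) ^ x) ?_
        tendsto_one_div_atTop_nhds_zero_nat
      exact (Real.continuous_const_rpow (by norm_num)).tendsto 0
    rw [Real.rpow_zero, ENNReal.ofReal_one] at h4
    refine h4.congr fun n => ?_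
    rw [← ENNReal.ofReal_rpow_of_nonneg (by norm_num) (by positivity)]
    congr 1
    rw [ENNReal.ofReal_inv_of_pos (by norm_num)]
    norm_num
  have h5 : Tendsto (fun n : ℕ => ((2 : ℝ≥0∞)⁻¹) ^ ((1:ℝ) / n) * a n ^ ((1:ℝ) / n)) atTop
      (𝓝 (1 * c)) :=
    ENNReal.Tendsto.mul h3 (Or.inl one_ne_zero) hlim (Or.inr ENNReal.one_ne_top)
  rw [one_mul] at h5
  refine tendsto_of_tendsto_of_tendsto_of_le_of_le h5 hlim (fun n => ?_) (fun n => ?_)
  · have h6 : (0:ℝ) ≤ 1 / n := by positivity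
    show ((2 : ℝ≥0∞)⁻¹) ^ ((1:ℝ) / n) * a n ^ ((1:ℝ) / n) ≤ b n ^ ((1:ℝ) / n)
    rw [← ENNReal.mul_rpow_of_nonneg _ _ h6]
    refine ENNReal.rpow_le_rpow ?_ h6
    calc (2 : ℝ≥0∞)⁻¹ * a n ≤ (2 : ℝ≥0∞)⁻¹ * (2 * b n) := by gcongr; exact h2 n
      _ = b n := by
        rw [← mul_assoc, ENNReal.inv_mul_cancel (by norm_num) (by norm_num), one_mul]
  · exact ENNReal.rpow_le_rpow (h1 n) (by positivity)

open Pool.Agent.H838R2.PL in
/-- (1) The product inequality: for all `K ≥ 2` and all `m_0, ..., m_{K-1}`, with `N` the sum of the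
numbers `m_i + 6`, the product of the numbers `l (m_i)` is at most `K * (N choose K) * l N`.
(2) There is `c` in `[0, ∞]` such that the `n`-th roots of `l n` and the `n`-th roots of `lm n` both
converge to `c`. (3) Every term is controlled by the limit: `l m ≤ e (m + 6) c ^ (m + 6)`. -/
theorem result :
    (∀ (K : ℕ) (m : ℕ → ℕ) (N : ℕ), 2 ≤ K → N = ∑ i ∈ Finset.range K, (m i + 6) →
      ∏ i ∈ Finset.range K, l (m i) ≤ ((K * N.choose K : ℕ) : ℕ∞) * l N) ∧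
    ∃ c : ℝ≥0∞,
      Tendsto (fun n : ℕ => ((l n : ℕ∞) : ℝ≥0∞) ^ ((1 : ℝ) / n)) atTop (𝓝 c) ∧
      Tendsto (fun n : ℕ => ((lm n : ℕ∞) : ℝ≥0∞) ^ ((1 : ℝ) / n)) atTop (𝓝 c) ∧
      ∀ m : ℕ, ((l m : ℕ∞) : ℝ≥0∞) ≤ ENNReal.ofReal (Real.exp 1 * (m + 6)) * c ^ (m + 6) := by
  refine ⟨final.1, ?_⟩
  obtain ⟨c, hc⟩ := final.2
  refine ⟨c, hc, ?_, fun m => ?_⟩
  · refine same_limit (fun n => ((l n : ℕ∞) : ℝ≥0∞)) (fun n => ((lm n : ℕ∞) : ℝ≥0∞)) c
      (fun n => ENat.toENNReal_le.2 (lm_le n)) (fun n => ?_) hc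
    have h := ENat.toENNReal_le.2 (le_lm n)
    rwa [ENat.toENNReal_mul] at h
  · refine growth (fun n => ((l n : ℕ∞) : ℝ≥0∞)) c hc m fun K hK => ?_
    have h := final.1 K (fun _ => m) (K * (m + 6)) hK (by simp)
    rw [Finset.prod_const, Finset.card_range] at h
    have h2 := ENat.toENNReal_le.2 h
    rwa [ENat.toENNReal_mul, ENat.toENNReal_pow, ENat.toENNReal_coe] at h2

end Pool.Agent.Results.MP_131179_gt.GrowthRate
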